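import Pool.Agent.Lib.MP_5c318e_ag.Bridge

/-! Normal form of regularity at a prime divisor, over any base field of characteristic zero. -/

namespace Pool.Agent.Lib.MP_5c318e_ag

open Set

variable {k F : Type} [Field k] [Field F] [Algebra k F]

/-- the image of the base field -/
noncomputable def kR (k F : Type) [Field k] [Field F] [Algebra k F] : Subfield F :=
  (algebraMap k F).fieldRange

theorem mem_kR (a : k) : algebraMap k F a ∈ kR k F := ⟨a, rfl⟩

theorem der_kR (δ : Derivation k F F) : ∀ c ∈ kR k F, δ c = 0 := by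
  rintro _ ⟨a, rfl⟩
  exact δ.map_algebraMap a

theorem closure_kR (S : Set F) :
    Subfield.closure ((kR k F : Set F) ∪ S) = (IntermediateField.adjoin k S).toSubfield := rfl

theorem alg_closure_iff {S : Set F} {x : F} :
    IsAlgebraic (Subfield.closure ((kR k F : Set F) ∪ S)) x ↔
      IsAlgebraic (IntermediateField.adjoin k S) x := Iff.rfl

theorem alg_of_basis {ι : Type*} {c : ι → F} (h : IsTranscendenceBasis k c) (x : F) :
    IsAlgebraic (Subfield.closure ((kR k F : Set F) ∪ range c)) x :=
  h.isAlgebraic_field.isAlgebraic x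

theorem indep_kR_iff {ι : Type*} {c : ι → F} :
    AlgebraicIndependent (kR k F) c ↔ AlgebraicIndependent k c := by
  let e : k ≃+* kR k F := RingEquiv.ofBijective (algebraMap k F).rangeRestrictField
    (algebraMap k F).rangeRestrictField_bijective
  constructor
  · intro h
    exact AlgebraicIndependent.of_ringHom_of_comp_eq (e : k →+* kR k F) (RingHom.id F) h
      e.injective (RingHom.ext fun _ => rfl)
  · intro h
    refine AlgebraicIndependent.of_ringHom_of_comp_eq (e.symm : kR k F →+* k) (RingHom.id F) h
      e.symm.injective (RingHom.ext fun x => ?_)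
    obtain ⟨a, rfl⟩ := e.surjective x
    simp only [RingHom.coe_comp, Function.comp_apply, RingHom.coe_coe, RingEquiv.symm_apply_apply,
      RingHom.id_apply]
    rfl

/-- derivations with values in a vector space are determined by a transcendence basis -/
theorem der_ext_basis [CharZero k] {ι M : Type*} [AddCommGroup M] [Module F M] [Module k M]
    [IsScalarTower k F M] {c : ι → F} (h : IsTranscendenceBasis k c) (d e : Derivation k F M)
    (hde : ∀ j, d (c j) = e (c j)) : d = e := by
  have : CharZero F := charZero_of_injective_algebraMap (algebraMap k F).injective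
  ext x
  rw [← sub_eq_zero, ← Module.forall_dual_apply_eq_zero_iff F]
  intro l
  have := der_zero_acl (l.compDer (d - e)) (S := (kR k F : Set F) ∪ range c) ?_ (alg_of_basis h x)
  · simpa using this
  · rintro y (hy | ⟨j, rfl⟩)
    · exact der_kR _ y hy
    · simp [hde j]

theorem det_eq_jac {R : Type*} [CommRing R] [Algebra R F] {ι : Type*} [Fintype ι]
    [DecidableEq ι] (D : ι → Derivation R F F) (f : ι → F) :
    (Matrix.of fun i j => D i (f j)).det = Jac D f := by
  rw [Jac, ← Matrix.det_transpose]
  rfl

/-- `c` is a system of coordinates adapted to `O`: a transcendence basis, `c i0` is a uniformiser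
and the residues of the other `c j` are algebraically independent. -/
structure Adp (k : Type) [Field k] [Algebra k F] (O : ValuationSubring F) {ι : Type}
    (c : ι → F) (i0 : ι) : Prop where
  basis : IsTranscendenceBasis k c
  lt : O.valuation (c i0) < 1
  grp : ∀ f : F, f ≠ 0 → ∃ n : ℤ, O.valuation f = O.valuation (c i0) ^ n
  res : ∀ p : MvPolynomial {j // j ≠ i0} k, p ≠ 0 →
    O.valuation (MvPolynomial.aeval (fun j : {j // j ≠ i0} => c j) p) = 1

namespace Adp

variable {O : ValuationSubring F} {ι : Type} {c : ι → F} {i0 : ι}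

theorem ne_zero (h : Adp k O c i0) (j : ι) : c j ≠ 0 := h.basis.1.ne_zero j

theorem unit (h : Adp k O c i0) {j : ι} (hj : j ≠ i0) : O.valuation (c j) = 1 := by
  simpa using h.res (MvPolynomial.X ⟨j, hj⟩) (MvPolynomial.X_ne_zero _)

theorem mem (h : Adp k O c i0) (j : ι) : c j ∈ O := by
  rw [← O.valuation_le_one_iff]
  by_cases hj : j = i0
  · rw [hj]; exact h.lt.le
  · exact (h.unit hj).le

theorem const_val (h : Adp k O c i0) {a : k} (ha : a ≠ 0) :
    O.valuation (algebraMap k F a) = 1 := by
  simpa using h.res (MvPolynomial.C a) (by simpa using ha)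

theorem const (h : Adp k O c i0) (a : k) : algebraMap k F a ∈ O := by
  rw [← O.valuation_le_one_iff]
  by_cases ha : a = 0
  · simp [ha]
  · exact (h.const_val ha).le

theorem dvr (h : Adp k O c i0) : IsDiscreteValuationRing O := by
  have := Br_dvr O.valuation (h.ne_zero i0) h.lt h.grp
  rwa [ValuationSubring.valuationSubring_valuation] at this

/-- a derivation that is regular on adapted coordinates preserves the valuation ring -/
theorem der_mem [CharZero k] (h : Adp k O c i0) (δ : Derivation k F F)
    (hδ : ∀ j, δ (c j) ∈ O) {f : F} (hf : f ∈ O) : δ f ∈ O := by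
  let Om := AlgebraicClosure F
  let ψ : F →+* Om := algebraMap F Om
  have : CharZero F := charZero_of_injective_algebraMap (algebraMap k F).injective
  have : CharZero Om := charZero_of_injective_algebraMap ψ.injective
  have := h.dvr
  have halg : ∀ y : Om, IsAlgebraic ψ.fieldRange y := fun y => by
    have h1 : IsAlgebraic F y := Algebra.IsAlgebraic.isAlgebraic y
    exact h1.ringHom_of_comp_eq ψ.rangeRestrictField (RingHom.id Om)
      ψ.rangeRestrictField.injective (RingHom.ext fun _ => rfl)
  obtain ⟨v, t, -, -, -, hle, -⟩ := ext_dvr ψ O halg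
  have heq : (v.comap ψ).IsEquiv O.valuation := by
    rw [Valuation.isEquiv_iff_val_le_one]
    intro x
    rw [O.valuation_le_one_iff]
    exact hle x
  have hb : IsTranscendenceBasis k (fun j => ψ (c j)) := h.basis.algebraMap_comp (A := Om)
  obtain ⟨D, hD⟩ := der_exists_basis hb fun j => ψ (δ (c j))
  have hDδ : ∀ x : F, D (ψ x) = ψ (δ x) := by
    intro x
    let d1 : Derivation k F Om := D.compAlgebraMap F
    let d2 : Derivation k F Om := (Algebra.linearMap F Om).compDer δ
    have h3 : d1 = d2 := der_ext_basis h.basis d1 d2 fun j => hD j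
    exact DFunLike.congr_fun h3 x
  have hk : kR k Om ≤ ψ.fieldRange := by
    rintro _ ⟨a, rfl⟩
    exact ⟨algebraMap k F a, (IsScalarTower.algebraMap_apply k F Om a).symm⟩
  have E : Emb k ψ (kR k Om) ψ.fieldRange :=
    ⟨fun y => ⟨fun ⟨a, ha⟩ => ⟨a, (IsScalarTower.algebraMap_apply k F Om a).symm.trans ha⟩,
      fun ⟨a, ha⟩ => ⟨a, (IsScalarTower.algebraMap_apply k F Om a).trans ha⟩⟩, fun _ => Iff.rfl⟩
  have hy : RInd v (kR k Om) fun a : {a // a ≠ i0} => ψ (c a) :=
    (E.rind (y := fun a : {a // a ≠ i0} => c a)).2 fun p hp =>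
      heq.eq_one_iff_eq_one.2 (h.res p hp)
  have hv : ∀ n : ℕ, n ≠ 0 → v n = 1 := fun n hn =>
    hy.triv (natCast_mem _ n) (Nat.cast_ne_zero.2 hn)
  have hlt : v (ψ (c i0)) < 1 := heq.lt_one_iff_lt_one.2 h.lt
  have key := key_reg (b := fun j => ψ (c j)) (i0 := i0) (del := 1) hv
    ((map_ne_zero ψ).2 (h.ne_zero i0)) hlt hy D (der_kR D)
    (fun a => by rw [hD]; exact (hle _).2 (hδ a)) ψ.fieldRange hk (fun a => ⟨c a, rfl⟩)
    (fun z _ => alg_of_basis hb z) ?_ (y := ψ f) ⟨f, rfl⟩ ((hle f).2 hf)
  · rw [hDδ] at key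
    exact (hle _).1 key
  · rintro _ ⟨x, rfl⟩ hx
    obtain ⟨n, hn⟩ := h.grp x ((map_ne_zero ψ).1 hx)
    refine ⟨n, ?_⟩
    rw [← map_zpow₀] at hn
    rw [← map_zpow₀, ← map_zpow₀]
    exact heq.eq_iff.2 hn

variable [Fintype ι] [DecidableEq ι]

/-- adapted coordinates have the largest Jacobian -/
theorem jac_le [CharZero k] (h : Adp k O c i0) (D : ι → Derivation k F F) {f : ι → F}
    (hf : ∀ j, f j ∈ O) : O.valuation (Jac D f) ≤ O.valuation (Jac D c) := by
  have : CharZero F := charZero_of_injective_algebraMap (algebraMap k F).injective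
  obtain ⟨e, he⟩ := der_dual_exists h.basis.1
  have h1 := jac_chain' (k0 := kR k F) e (fun j => der_kR _) (b := c)
    (by rw [jac_self he]; exact one_ne_zero) D (fun j => der_kR _) f
    (fun a => alg_of_basis h.basis _)
  rw [jac_self he, mul_one] at h1
  have h2 := val_jac_le O.valuation e f (fun _ => 1) (fun _ => 1) fun a b => by
    rw [one_mul, O.valuation_le_one_iff]
    refine h.der_mem _ (fun j => ?_) (hf a)
    rw [he]
    split_ifs
    · exact one_mem _
    · exact zero_mem _
  rw [h1, map_mul]
  exact mul_le_of_le_one_left' (by simpa using h2)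

theorem jac_eq [CharZero k] (h : Adp k O c i0) {c' : ι → F} {i1 : ι} (h' : Adp k O c' i1)
    (D : ι → Derivation k F F) : O.valuation (Jac D c) = O.valuation (Jac D c') :=
  le_antisymm (h'.jac_le D h.mem) (h.jac_le D h'.mem)

theorem divisorial (h : Adp k O c i0) : IsDivisorial k F O := by
  let e := (Fintype.equivFin {j // j ≠ i0}).symm
  refine ⟨h.dvr, _, fun j => c (e j), ?_, fun p hp => ?_⟩
  · rw [← h.basis.cardinalMk_eq_trdeg, Cardinal.mk_fintype]
    have : 0 < Fintype.card ι := Fintype.card_pos_iff.2 ⟨i0⟩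
    congr 1
    simp only [ne_eq, Fintype.card_subtype_compl, Fintype.card_unique]
    omega
  · have := h.res (MvPolynomial.rename e p)
      fun h0 => hp (MvPolynomial.rename_injective e e.injective (by rw [h0, map_zero]))
    rwa [MvPolynomial.aeval_rename] at this

end Adp

/-- NF: regularity at a prime divisor, read in adapted coordinates -/
theorem Adp.regAt_iff [CharZero k] {O : ValuationSubring F} {n : ℕ} {c : Fin n → F} {i0 : Fin n}
    (h : Adp k O c i0) (D : Fin n → Derivation k F F) (m : ℕ) (φ : F) :
    RegAt k F D m φ O ↔ O.valuation φ ≤ O.valuation (Jac D c) ^ m := by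
  constructor
  · rintro ⟨f, hf, u, hu, rfl⟩
    rw [det_eq_jac, map_mul, map_pow]
    exact (mul_le_of_le_one_left' ((O.valuation_le_one_iff u).2 hu)).trans
      (pow_le_pow_left' (h.jac_le D hf) m)
  · intro hφ
    refine ⟨c, h.mem, ?_⟩
    rw [det_eq_jac]
    by_cases hJ : Jac D c ^ m = 0
    · rw [← map_pow, hJ, map_zero, le_zero_iff, Valuation.zero_iff] at hφ
      exact ⟨0, zero_mem _, by rw [hφ, zero_mul]⟩
    · refine ⟨φ / Jac D c ^ m, ?_, (div_mul_cancel₀ _ hJ).symm⟩
      rw [← O.valuation_le_one_iff, map_div₀, div_le_one₀ ((Valuation.pos_iff _).2 hJ), map_pow]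
      exact hφ

/-- a uniformiser and residually independent elements are algebraically independent -/
theorem indep_option {O : ValuationSubring F} {κ : Type} {t : F} {y : κ → F} (ht0 : t ≠ 0)
    (ht : O.valuation t < 1) (hy : RIndC k O.valuation y) :
    AlgebraicIndependent k fun o : Option κ => o.elim t y := by
  rw [hy.algInd.option_iff_transcendental]
  intro hal
  exact ht.ne (triv_acl (fun f hf h0 => hy.triv hf h0) t ((isAlgebraic_gen_iff y t).2 hal) ht0)

theorem Adp.reindex {O : ValuationSubring F} {ι κ : Type} {c : ι → F} {i0 : ι}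
    (h : Adp k O c i0) (e : κ ≃ ι) : Adp k O (c ∘ e) (e.symm i0) where
  basis := (isTranscendenceBasis_equiv e).2 h.basis
  lt := by simpa using h.lt
  grp := by simpa using h.grp
  res := RIndC.comp (v := O.valuation) h.res
    (fun j : {j // j ≠ e.symm i0} => ⟨e j, fun h0 => j.2 (e.eq_symm_apply.2 h0)⟩)
    fun _ _ hij => Subtype.ext (e.injective (congrArg Subtype.val hij))

/-- adapted coordinates from a uniformiser and enough residually independent elements -/
theorem adp_option {O : ValuationSubring F} {κ : Type} [Fintype κ] {t : F} {y : κ → F}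
    (ht0 : t ≠ 0) (ht : O.valuation t < 1)
    (hg : ∀ f : F, f ≠ 0 → ∃ n : ℤ, O.valuation f = O.valuation t ^ n)
    (hy : RIndC k O.valuation y) (hc : Algebra.trdeg k F ≤ (Fintype.card κ + 1 : ℕ)) :
    Adp k O (fun o : Option κ => o.elim t y) none where
  basis := (indep_option ht0 ht hy).isTranscendenceBasis_of_trdeg_le_of_finite (by simpa using hc)
  lt := ht
  grp := hg
  res := by
    have h2 : ∀ j : {j : Option κ // j ≠ none}, ∃ l, j.1 = some l := fun j =>
      Option.ne_none_iff_exists'.1 j.2
    choose l hl using h2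
    have h3 : (fun j : {j : Option κ // j ≠ none} => (j.1.elim t y : F)) = y ∘ l :=
      funext fun j => by simp [hl]
    rw [h3]
    exact hy.comp l fun i j hij => Subtype.ext (by rw [hl, hl, hij])

/-- a discrete valuation ring has a uniformiser -/
theorem exists_unif (O : ValuationSubring F) [IsDiscreteValuationRing O] :
    ∃ t : F, t ≠ 0 ∧ O.valuation t < 1 ∧
      ∀ f : F, f ≠ 0 → ∃ n : ℤ, O.valuation f = O.valuation t ^ n := by
  obtain ⟨t, ht⟩ := IsDiscreteValuationRing.exists_irreducible O
  have h0 : (t : F) ≠ 0 := fun h => ht.ne_zero (Subtype.ext h)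
  have key : ∀ x : O, x ≠ 0 → ∃ n : ℕ, O.valuation x = O.valuation t ^ n := fun x hx => by
    obtain ⟨n, u, rfl⟩ := IsDiscreteValuationRing.eq_unit_mul_pow_irreducible hx ht
    refine ⟨n, ?_⟩
    push_cast
    rw [map_mul, map_pow, O.valuation_unit, one_mul]
  refine ⟨t, h0, (O.valuation_lt_one_iff t).1 ht.not_isUnit, fun f hf => ?_⟩
  rcases O.mem_or_inv_mem f with h | h
  · obtain ⟨n, hn⟩ := key ⟨f, h⟩ fun e => hf (congrArg Subtype.val e)
    exact ⟨n, by simpa using hn⟩
  · obtain ⟨n, hn⟩ := key ⟨f⁻¹, h⟩ fun e => inv_ne_zero hf (congrArg Subtype.val e)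
    refine ⟨-n, ?_⟩
    rw [zpow_neg, zpow_natCast, ← hn, map_inv₀, inv_inv]

/-- a prime divisor has adapted coordinates, indexed by any type of the right size -/
theorem IsDivisorial.exists_adp {O : ValuationSubring F} (hO : IsDivisorial k F O) {ι : Type}
    [Fintype ι] (hι : Algebra.trdeg k F = Fintype.card ι) :
    ∃ (c : ι → F) (i0 : ι), Adp k O c i0 := by
  obtain ⟨hd, n, y, hn, hy⟩ := hO
  obtain ⟨t, h0, ht, hg⟩ := exists_unif O
  have hcard : Fintype.card ι = Fintype.card (Option (Fin n)) := by
    rw [Fintype.card_option, Fintype.card_fin]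
    exact_mod_cast hι.symm.trans hn.symm
  exact ⟨_, _, (adp_option h0 ht hg hy (by simpa using hn.ge)).reindex
    (Fintype.equivOfCardEq hcard)⟩

theorem IsDivisorial.const {O : ValuationSubring F} (hO : IsDivisorial k F O) (a : k) :
    algebraMap k F a ∈ O := by
  obtain ⟨-, n, y, -, hy⟩ := hO
  exact (O.valuation_le_one_iff _).1 (RIndC.const_le (v := O.valuation) hy a)

/-- the dual derivations of a transcendence basis form a basis -/
theorem dual_basis [CharZero k] {ι : Type} [Fintype ι] [DecidableEq ι] {b : ι → F}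
    (hb : IsTranscendenceBasis k b) {D : ι → Derivation k F F}
    (hD : ∀ j a, D j (b a) = if a = j then 1 else 0) :
    LinearIndependent F D ∧ ∀ δ, δ ∈ Submodule.span F (range D) := by
  constructor
  · rw [Fintype.linearIndependent_iff]
    intro g hg i
    have := DFunLike.congr_fun hg (b i)
    rw [der_sum_apply] at this
    simpa [hD] using this
  · intro δ
    have : δ = ∑ j, δ (b j) • D j := der_ext_basis hb _ _ fun j => by
      rw [der_sum_apply]
      simp [hD]
    rw [this]
    exact Submodule.sum_mem _ fun j _ => Submodule.smul_mem _ _ (Submodule.subset_span ⟨j, rfl⟩)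

/-- the length of a frame is the transcendence degree -/
theorem IsFrame.trdeg [CharZero k] {n : ℕ} {D : Fin n → Derivation k F F} (h : IsFrame k F D) :
    Algebra.trdeg k F = n := by
  classical
  obtain ⟨s, hs⟩ := exists_isTranscendenceBasis k F
  let B : Module.Basis (Fin n) F (Derivation k F F) := Module.Basis.mk h.1 fun δ _ => h.2 δ
  have := Module.Finite.of_basis B
  obtain ⟨e, he⟩ := der_dual_exists hs.1
  have hli : LinearIndependent F e := by
    rw [linearIndependent_iff']
    intro t g hg i hi
    have := DFunLike.congr_fun hg (i : F)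
    rw [der_sum_apply] at this
    simpa [he, hi] using this
  have : Finite s := hli.finite
  have := Fintype.ofFinite s
  have h1 := dual_basis hs he
  let B1 : Module.Basis s F (Derivation k F F) := Module.Basis.mk h1.1 fun δ _ => h1.2 δ
  rw [← hs.cardinalMk_eq_trdeg, Cardinal.mk_fintype, Fintype.card_congr (B1.indexEquiv B),
    Fintype.card_fin]

theorem IsFrame.jac_ne [CharZero k] {n : ℕ} {D : Fin n → Derivation k F F} (h : IsFrame k F D)
    {c : Fin n → F} (hc : AlgebraicIndependent k c) : Jac D c ≠ 0 := by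
  have hb := hc.isTranscendenceBasis_of_trdeg_le_of_finite (by simpa using h.trdeg.le)
  obtain ⟨e, he⟩ := der_dual_exists hc
  have h1 := dual_basis hb he
  obtain ⟨g, a, ha, hg⟩ := Br_change h1.1 h1.2 h
  have h2 := hg (c ∘ g)
  have h3 : (c ∘ g) ∘ g.symm = c := by ext; simp
  rw [h3, jac_self he, det_eq_jac, mul_one] at h2
  intro h0
  apply ha
  rw [← h2, Jac]
  have h4 : (Matrix.of fun a b => D b ((c ∘ g) a)) =
      (Matrix.of fun a b => D b (c a)).submatrix g id := rfl
  rw [h4, Matrix.det_permute]
  exact mul_eq_zero_of_right _ h0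

end Pool.Agent.Lib.MP_5c318e_ag
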