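import Pool.Agent.Lib.MP_5c318e_ag.A.NF

/-! Pluricanonical forms for frames with any finite index type: change of frame, products,
and the Kodaira dimension read in one fixed frame. -/

namespace Pool.Agent.Lib.MP_5c318e_ag

open Set

variable {k F : Type} [Field k] [Field F] [Algebra k F]
variable {ι κ : Type} [Fintype ι] [DecidableEq ι] [Fintype κ] [DecidableEq κ]

/-- a frame with any finite index type -/
def IsFr (D : ι → Derivation k F F) : Prop :=
  ∃ b : ι → F, IsTranscendenceBasis k b ∧ Jac D b ≠ 0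

/-- the form of weight `m` with coefficient `φ` is regular at every prime divisor -/
def PluD (D : ι → Derivation k F F) (m : ℕ) (φ : F) : Prop :=
  ∀ (O : ValuationSubring F) (c : ι → F) (i0 : ι), Adp k O c i0 →
    O.valuation φ ≤ O.valuation (Jac D c) ^ m

theorem IsFr.trdeg {D : ι → Derivation k F F} (h : IsFr D) :
    Algebra.trdeg k F = Fintype.card ι := by
  obtain ⟨b, hb, -⟩ := h
  rw [← hb.cardinalMk_eq_trdeg, Cardinal.mk_fintype]

omit [DecidableEq ι] in
theorem exists_basis_of_trdeg (h : Algebra.trdeg k F = Fintype.card ι) :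
    ∃ b : ι → F, IsTranscendenceBasis k b := by
  obtain ⟨s, hs⟩ := exists_isTranscendenceBasis k F
  have h1 : Cardinal.mk ι = Cardinal.mk s := by
    rw [hs.cardinalMk_eq_trdeg, h, Cardinal.mk_fintype]
  obtain ⟨e⟩ := Cardinal.eq.1 h1
  exact ⟨_, (isTranscendenceBasis_equiv e).2 hs⟩

theorem isFr_dual {b : ι → F} (hb : IsTranscendenceBasis k b) {D : ι → Derivation k F F}
    (hD : ∀ j a, D j (b a) = if a = j then 1 else 0) : IsFr D :=
  ⟨b, hb, by rw [jac_self hD]; exact one_ne_zero⟩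

theorem IsFr.reindex {D : ι → Derivation k F F} (h : IsFr D) (e : κ ≃ ι) :
    IsFr fun j => D (e j) := by
  obtain ⟨b, hb, hJ⟩ := h
  exact ⟨fun j => b (e j), (isTranscendenceBasis_equiv e).2 hb, by rwa [jac_equiv]⟩

theorem PluD.reindex {D : ι → Derivation k F F} {m : ℕ} {φ : F} (h : PluD D m φ) (e : κ ≃ ι) :
    PluD (fun j => D (e j)) m φ := fun O c i0 hc => by
  have h1 := h O _ _ (hc.reindex e.symm)
  have h2 := jac_equiv D (c ∘ e.symm) e
  simp only [Function.comp_apply, Equiv.symm_apply_apply] at h2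
  rwa [← h2] at h1

theorem pluD_reindex {D : ι → Derivation k F F} {m : ℕ} {φ : F} (e : κ ≃ ι) :
    PluD (fun j => D (e j)) m φ ↔ PluD D m φ :=
  ⟨fun h => by simpa using h.reindex e.symm, fun h => h.reindex e⟩

section char

variable [CharZero k]

theorem exists_isFr (h : Algebra.trdeg k F = Fintype.card ι) :
    ∃ D : ι → Derivation k F F, IsFr D := by
  obtain ⟨b, hb⟩ := exists_basis_of_trdeg h
  obtain ⟨D, hD⟩ := der_dual_exists hb.1
  exact ⟨D, isFr_dual hb hD⟩

/-- chain rule -/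
theorem jac_swap {D : ι → Derivation k F F} {b : ι → F} (hb : IsTranscendenceBasis k b)
    (hJ : Jac D b ≠ 0) (E : ι → Derivation k F F) (f : ι → F) :
    Jac E f * Jac D b = Jac D f * Jac E b := by
  have : CharZero F := charZero_of_injective_algebraMap (algebraMap k F).injective
  exact jac_chain' (k0 := kR k F) D (fun j => der_kR _) hJ E (fun j => der_kR _) f
    fun a => alg_of_basis hb _

theorem IsFr.jac_ne {D : ι → Derivation k F F} (h : IsFr D) {c : ι → F}
    (hc : AlgebraicIndependent k c) : Jac D c ≠ 0 := by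
  have : CharZero F := charZero_of_injective_algebraMap (algebraMap k F).injective
  obtain ⟨b, hb, hJ⟩ := h
  exact jac_ne_zero (k0 := kR k F) D (fun j => der_kR _) hJ (indep_kR_iff.2 hc)
    fun a => alg_of_basis hb _

theorem IsFrame.isFr {n : ℕ} {D : Fin n → Derivation k F F} (h : IsFrame k F D) : IsFr D := by
  obtain ⟨b, hb⟩ := exists_basis_of_trdeg (ι := Fin n) (k := k) (F := F) (by simpa using h.trdeg)
  exact ⟨b, hb, h.jac_ne hb.1⟩

theorem IsFr.basis {D : ι → Derivation k F F} (h : IsFr D) :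
    LinearIndependent F D ∧ ∀ δ, δ ∈ Submodule.span F (range D) := by
  obtain ⟨b, hb, hJ⟩ := h
  constructor
  · rw [Fintype.linearIndependent_iff]
    intro g hg
    have h1 : (Matrix.of fun a c => D c (b a)).mulVec g = 0 := by
      ext a
      have := DFunLike.congr_fun hg (b a)
      rw [der_sum_apply] at this
      simpa [Matrix.mulVec, dotProduct, mul_comm] using this
    exact congrFun (Matrix.eq_zero_of_mulVec_eq_zero hJ h1)
  · intro δ
    refine Submodule.span_le.2 ?_ ((dual_basis hb (D := dual D b) (dual_self D hJ)).2 δ)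
    rintro _ ⟨j, rfl⟩
    exact Submodule.sum_mem _ fun i _ => Submodule.smul_mem _ _ (Submodule.subset_span ⟨i, rfl⟩)

theorem IsFr.isFrame {n : ℕ} {D : Fin n → Derivation k F F} (h : IsFr D) : IsFrame k F D :=
  h.basis

theorem isPluri_iff {n : ℕ} {D : Fin n → Derivation k F F} (h : IsFrame k F D) {m : ℕ} {φ : F} :
    IsPluri k F D m φ ↔ PluD D m φ := by
  constructor
  · intro hp O c i0 hc
    exact (hc.regAt_iff D m φ).1 (hp O hc.divisorial)
  · intro hp O hO
    obtain ⟨c, i0, hc⟩ := hO.exists_adp (ι := Fin n) (by simpa using h.trdeg)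
    exact (hc.regAt_iff D m φ).2 (hp O c i0 hc)

/-- it is enough to test one system of adapted coordinates for each prime divisor -/
theorem pluD_of_exists {D : ι → Derivation k F F} {m : ℕ} {φ : F}
    (h : ∀ O : ValuationSubring F, IsDivisorial k F O → ∃ c i0, Adp k O c i0 ∧
      O.valuation φ ≤ O.valuation (Jac D c) ^ m) : PluD D m φ := fun O c i0 hc => by
  obtain ⟨c', i1, h1, h2⟩ := h O hc.divisorial
  rwa [hc.jac_eq h1]

/-- regular coordinates are enough -/
theorem pluD_of_mem {D : ι → Derivation k F F} {m : ℕ} {φ : F}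
    (h : ∀ O : ValuationSubring F, IsDivisorial k F O → ∃ f : ι → F, (∀ j, f j ∈ O) ∧
      O.valuation φ ≤ O.valuation (Jac D f) ^ m) : PluD D m φ := fun O c i0 hc => by
  obtain ⟨f, h1, h2⟩ := h O hc.divisorial
  exact h2.trans (pow_le_pow_left' (hc.jac_le D h1) m)

theorem IsFr.change' {D E : ι → Derivation k F F} (hD : IsFr D) (hE : IsFr E) :
    ∃ a : F, a ≠ 0 ∧ ∀ f, Jac D f = a * Jac E f := by
  obtain ⟨b, hb, hJ⟩ := hE
  refine ⟨Jac D b / Jac E b, div_ne_zero (hD.jac_ne hb.1) hJ, fun f => ?_⟩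
  rw [div_mul_eq_mul_div, eq_div_iff hJ, jac_swap hb hJ D f, mul_comm]

omit [CharZero k] in
theorem pluD_scale {D E : ι → Derivation k F F} {a : F} (ha : a ≠ 0)
    (h : ∀ f, Jac D f = a * Jac E f) (m : ℕ) (φ : F) : PluD E m φ ↔ PluD D m (φ * a ^ m) := by
  refine forall₄_congr fun O c i0 _ => ?_
  rw [h, map_mul, map_mul, map_pow, mul_pow, mul_comm (O.valuation a ^ m),
    mul_le_mul_iff_left₀ (pow_pos ((Valuation.pos_iff _).2 ha) m)]

/-- change of frame -/
theorem IsFr.change {D : ι → Derivation k F F} {E : κ → Derivation k F F} (hD : IsFr D)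
    (hE : IsFr E) : ∃ a : F, a ≠ 0 ∧ ∀ m φ, PluD E m φ ↔ PluD D m (φ * a ^ m) := by
  have hc : Fintype.card ι = Fintype.card κ := by exact_mod_cast hD.trdeg.symm.trans hE.trdeg
  let e := Fintype.equivOfCardEq hc
  obtain ⟨a, ha, h⟩ := hD.change' (hE.reindex e)
  exact ⟨a, ha, fun m φ => (pluD_reindex e).symm.trans (pluD_scale ha h m φ)⟩

/-- the ratios can be read in one frame -/
theorem mem_ratios_iff {D : ι → Derivation k F F} (hD : IsFr D) {h : F} :
    h ∈ ratios k F ↔ ∃ m, 0 < m ∧ ∃ φ ψ, PluD D m φ ∧ PluD D m ψ ∧ ψ ≠ 0 ∧ h = φ / ψ := by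
  constructor
  · rintro ⟨n, E, hE, m, hm, φ, ψ, h1, h2, h0, rfl⟩
    obtain ⟨a, ha, hc⟩ := hD.change hE.isFr
    exact ⟨m, hm, _, _, (hc m φ).1 ((isPluri_iff hE).1 h1), (hc m ψ).1 ((isPluri_iff hE).1 h2),
      mul_ne_zero h0 (pow_ne_zero m ha), (mul_div_mul_right _ _ (pow_ne_zero m ha)).symm⟩
  · rintro ⟨m, hm, φ, ψ, h1, h2, h0, rfl⟩
    let e := (Fintype.equivFin ι).symm
    have hE := (hD.reindex e).isFrame
    exact ⟨_, _, hE, m, hm, φ, ψ, (isPluri_iff hE).2 (h1.reindex e),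
      (isPluri_iff hE).2 (h2.reindex e), h0, rfl⟩

end char

namespace PluD

variable {D : ι → Derivation k F F} {m m' : ℕ} {φ ψ : F}

theorem zero : PluD D m 0 := fun O c i0 _ => by simp

theorem one : PluD D 0 1 := fun O c i0 _ => by simp

theorem mul (h : PluD D m φ) (h' : PluD D m' ψ) : PluD D (m + m') (φ * ψ) := fun O c i0 hc => by
  rw [map_mul, pow_add]
  exact mul_le_mul' (h O c i0 hc) (h' O c i0 hc)

theorem add (h : PluD D m φ) (h' : PluD D m ψ) : PluD D m (φ + ψ) := fun O c i0 hc =>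
  O.valuation.map_add_le (h O c i0 hc) (h' O c i0 hc)

theorem neg (h : PluD D m φ) : PluD D m (-φ) := fun O c i0 hc => by
  rw [Valuation.map_neg]
  exact h O c i0 hc

theorem const_mul (h : PluD D m φ) (a : k) : PluD D m (algebraMap k F a * φ) :=
  fun O c i0 hc => by
    rw [map_mul]
    exact (mul_le_of_le_one_left' ((O.valuation_le_one_iff _).2 (hc.const a))).trans
      (h O c i0 hc)

theorem pow (h : PluD D m φ) (n : ℕ) : PluD D (m * n) (φ ^ n) := fun O c i0 hc => by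
  rw [map_pow, pow_mul]
  exact pow_le_pow_left' (h O c i0 hc) n

theorem of_pow {n : ℕ} (hn : n ≠ 0) (h : PluD D (m * n) (φ ^ n)) : PluD D m φ :=
  fun O c i0 hc => by
    have := h O c i0 hc
    rwa [map_pow, pow_mul, pow_le_pow_iff_left₀ zero_le zero_le hn] at this

theorem prod {α : Type*} (s : Finset α) {w : α → ℕ} {f : α → F}
    (h : ∀ a ∈ s, PluD D (w a) (f a)) : PluD D (∑ a ∈ s, w a) (∏ a ∈ s, f a) := by
  classical
  induction s using Finset.induction_on with
  | empty => simpa using one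
  | insert a s ha ih =>
    rw [Finset.sum_insert ha, Finset.prod_insert ha]
    exact (h a (Finset.mem_insert_self _ _)).mul
      (ih fun b hb => h b (Finset.mem_insert_of_mem hb))

theorem sum {α : Type*} (s : Finset α) {f : α → F} (h : ∀ a ∈ s, PluD D m (f a)) :
    PluD D m (∑ a ∈ s, f a) := by
  classical
  induction s using Finset.induction_on with
  | empty => simpa using zero
  | insert a s ha ih =>
    rw [Finset.sum_insert ha]
    exact (h a (Finset.mem_insert_self _ _)).add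
      (ih fun b hb => h b (Finset.mem_insert_of_mem hb))

end PluD

section kod

variable [CharZero k] {D : ι → Derivation k F F}

omit [CharZero k] in
theorem kod_ne_bot_iff_ratios : kod k F ≠ ⊥ ↔ (ratios k F).Nonempty := by
  unfold kod
  split_ifs with h
  · simp [h]
  · simp [h]

theorem kod_ne_bot_iff (hD : IsFr D) :
    kod k F ≠ ⊥ ↔ ∃ m, 0 < m ∧ ∃ φ, φ ≠ 0 ∧ PluD D m φ := by
  rw [kod_ne_bot_iff_ratios]
  constructor
  · rintro ⟨h, hh⟩
    obtain ⟨m, hm, -, ψ, -, h2, h0, -⟩ := (mem_ratios_iff hD).1 hh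
    exact ⟨m, hm, ψ, h0, h2⟩
  · rintro ⟨m, hm, φ, h0, h⟩
    exact ⟨_, (mem_ratios_iff hD).2 ⟨m, hm, φ, φ, h, h, h0, rfl⟩⟩

/-- finitely many ratios have a common denominator -/
theorem ratios_common (hD : IsFr D) (hne : kod k F ≠ ⊥) {α : Type*} [Finite α] {h : α → F}
    (hh : ∀ a, h a ∈ ratios k F) :
    ∃ m, 0 < m ∧ ∃ ψ, ψ ≠ 0 ∧ PluD D m ψ ∧ ∀ a, PluD D m (h a * ψ) := by
  classical
  have := Fintype.ofFinite α
  obtain ⟨m0, hm0, ψ0, h0, hψ0⟩ := (kod_ne_bot_iff hD).1 hne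
  choose m _ φ ψ h1 h2 h3 h4 using fun a => (mem_ratios_iff hD).1 (hh a)
  refine ⟨m0 + ∑ a, m a, by omega, ψ0 * ∏ a, ψ a,
    mul_ne_zero h0 (Finset.prod_ne_zero_iff.2 fun a _ => h3 a),
    hψ0.mul (PluD.prod _ fun a _ => h2 a), fun a => ?_⟩
  have h5 := hψ0.mul ((h1 a).mul (PluD.prod (Finset.univ.erase a) fun b _ => h2 b))
  rw [Finset.add_sum_erase _ _ (Finset.mem_univ a)] at h5
  convert h5 using 1
  rw [← Finset.mul_prod_erase _ _ (Finset.mem_univ a), h4 a]
  field_simp [h3 a]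

/-- the ratios form a field -/
def ratF (hD : IsFr D) (hne : kod k F ≠ ⊥) : IntermediateField k F where
  carrier := ratios k F
  mul_mem' := fun {a b} ha hb => by
    obtain ⟨m, hm, φ, ψ, h1, h2, h0, rfl⟩ := (mem_ratios_iff hD).1 ha
    obtain ⟨m', -, φ', ψ', h1', h2', h0', rfl⟩ := (mem_ratios_iff hD).1 hb
    exact (mem_ratios_iff hD).2 ⟨m + m', by omega, _, _, h1.mul h1', h2.mul h2',
      mul_ne_zero h0 h0', div_mul_div_comm _ _ _ _⟩
  add_mem' := fun {a b} ha hb => by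
    obtain ⟨m, hm, φ, ψ, h1, h2, h0, rfl⟩ := (mem_ratios_iff hD).1 ha
    obtain ⟨m', -, φ', ψ', h1', h2', h0', rfl⟩ := (mem_ratios_iff hD).1 hb
    exact (mem_ratios_iff hD).2 ⟨m + m', by omega, _, _, (h1.mul h2').add (h2.mul h1'),
      h2.mul h2', mul_ne_zero h0 h0', div_add_div _ _ h0 h0'⟩
  algebraMap_mem' := fun a => by
    obtain ⟨m, hm, ψ, h0, h⟩ := (kod_ne_bot_iff hD).1 hne
    exact (mem_ratios_iff hD).2 ⟨m, hm, _, _, h.const_mul a, h, h0,
      (mul_div_cancel_right₀ _ h0).symm⟩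
  inv_mem' := fun a ha => by
    obtain ⟨m, hm, φ, ψ, h1, h2, h0, rfl⟩ := (mem_ratios_iff hD).1 ha
    by_cases hφ : φ = 0
    · exact (mem_ratios_iff hD).2 ⟨m, hm, φ, ψ, h1, h2, h0, by simp [hφ]⟩
    · exact (mem_ratios_iff hD).2 ⟨m, hm, ψ, φ, h2, h1, hφ, inv_div _ _⟩

theorem adjoin_ratios (hD : IsFr D) (hne : kod k F ≠ ⊥) {x : F} :
    x ∈ IntermediateField.adjoin k (ratios k F) ↔ x ∈ ratios k F :=
  ⟨fun hx => (IntermediateField.adjoin_le_iff (T := ratF hD hne)).2 subset_rfl hx,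
    fun hx => IntermediateField.subset_adjoin _ _ hx⟩

omit [CharZero k] in
theorem trk_kR (S : Set F) :
    trk (kR k F) S = (Algebra.trdeg k (IntermediateField.adjoin k S)).toENat := by
  have := trk_eq_trdeg_adjoin (k0 := k) (k := kR k F) (RingHom.id F) (fun _ => Iff.rfl) S
  simpa using this

omit [CharZero k] in
theorem IsFr.trk_le (hD : IsFr D) (S : Set F) : trk (kR k F) S ≤ Fintype.card ι := by
  obtain ⟨b, hb, -⟩ := hD
  exact (trk_le_of_alg fun s _ => alg_of_basis hb s).trans (trk_range_le _ b)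

omit [CharZero k] in
/-- the Kodaira dimension is the rank of the ratios -/
theorem kod_eq_nat (hD : IsFr D) (hne : kod k F ≠ ⊥) :
    ∃ n : ℕ, kod k F = ((n : Cardinal) : WithBot Cardinal) ∧
      (n : ℕ∞) = trk (kR k F) (ratios k F) ∧ n ≤ Fintype.card ι := by
  have h1 := hD.trk_le (ratios k F)
  obtain ⟨n, hn⟩ := ENat.ne_top_iff_exists.1 (ne_top_of_le_ne_top (ENat.natCast_ne_top _) h1)
  refine ⟨n, ?_, hn, by rw [← hn] at h1; exact_mod_cast h1⟩
  rw [trk_kR] at hn
  rw [kod, if_pos (kod_ne_bot_iff_ratios.1 hne), Cardinal.toENat_eq_natCast.1 hn.symm]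

omit [CharZero k] in
theorem le_kod_iff_trk (hD : IsFr D) {n : ℕ} :
    ((n : Cardinal) : WithBot Cardinal) ≤ kod k F ↔
      kod k F ≠ ⊥ ∧ (n : ℕ∞) ≤ trk (kR k F) (ratios k F) := by
  by_cases hne : kod k F = ⊥
  · simp [hne]
  · obtain ⟨n', h1, h2, -⟩ := kod_eq_nat hD hne
    rw [← h2, and_iff_right hne, h1]
    norm_cast

/-- lower bounds for the Kodaira dimension in terms of forms of one weight -/
theorem le_kod_iff (hD : IsFr D) {n : ℕ} :
    ((n : Cardinal) : WithBot Cardinal) ≤ kod k F ↔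
      ∃ m, 0 < m ∧ ∃ ψ, ψ ≠ 0 ∧ PluD D m ψ ∧ ∃ h : Fin n → F, AlgebraicIndependent k h ∧
        ∀ a, PluD D m (h a * ψ) := by
  rw [le_kod_iff_trk hD, le_trk_iff]
  constructor
  · rintro ⟨hne, h, hh, hi⟩
    obtain ⟨m, hm, ψ, h0, h1, h2⟩ := ratios_common hD hne hh
    exact ⟨m, hm, ψ, h0, h1, h, indep_kR_iff.1 hi, h2⟩
  · rintro ⟨m, hm, ψ, h0, h1, h, hi, h2⟩
    exact ⟨(kod_ne_bot_iff hD).2 ⟨m, hm, ψ, h0, h1⟩, h, fun a => (mem_ratios_iff hD).2
      ⟨m, hm, _, ψ, h2 a, h1, h0, (mul_div_cancel_right₀ _ h0).symm⟩, indep_kR_iff.2 hi⟩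

omit [CharZero k] in
theorem kod_le_card (hD : IsFr D) :
    kod k F ≤ ((Fintype.card ι : Cardinal) : WithBot Cardinal) := by
  by_cases hne : kod k F = ⊥
  · simp [hne]
  · obtain ⟨n, h1, -, h2⟩ := kod_eq_nat hD hne
    rw [h1]
    exact_mod_cast h2

end kod

end Pool.Agent.Lib.MP_5c318e_ag
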