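import Pool.Agent.Lib.MP_5c318e_ag.A.Plu

/-! Logarithmic bounds and the ramification formula in adapted coordinates. -/

namespace Pool.Agent.Lib.MP_5c318e_ag

open Set

variable {k F : Type} [Field k] [Field F] [Algebra k F] [CharZero k]
variable {ι : Type} [DecidableEq ι] {O : ValuationSubring F} {c : ι → F} {i0 : ι}

/-- replacing one coordinate multiplies the Jacobian by a partial derivative -/
theorem jac_upd [Fintype ι] (hc : IsTranscendenceBasis k c) {e : ι → Derivation k F F}
    (he : ∀ j a, e j (c a) = if a = j then 1 else 0) (D : ι → Derivation k F F) (i : ι) (t : F) :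
    Jac D (Function.update c i t) = e i t * Jac D c := by
  have h1 := jac_swap hc (D := e) (by rw [jac_self he]; exact one_ne_zero) D
    (Function.update c i t)
  rw [jac_self he, mul_one] at h1
  rw [h1]
  congr 1
  have h2 := Matrix.det_updateRow_sum (1 : Matrix ι ι F) i fun b => e b t
  rw [Matrix.det_one, smul_eq_mul, mul_one] at h2
  rw [← h2, Jac]
  congr 1
  ext a b
  by_cases ha : a = i
  · subst ha
    simp [Matrix.one_apply]
  · simp [ha, he, Matrix.one_apply]

namespace Adp

theorem dual_mem (h : Adp k O c i0) {e : ι → Derivation k F F}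
    (he : ∀ j a, e j (c a) = if a = j then 1 else 0) (j : ι) {f : F} (hf : f ∈ O) :
    e j f ∈ O := by
  refine h.der_mem _ (fun a => ?_) hf
  rw [he]
  split_ifs
  · exact one_mem _
  · exact zero_mem _

omit [CharZero k] [DecidableEq ι] in
theorem val_pos (h : Adp k O c i0) : 0 < O.valuation (c i0) :=
  (Valuation.pos_iff _).2 (h.ne_zero i0)

omit [CharZero k] [DecidableEq ι] in
theorem exists_unit (h : Adp k O c i0) {f : F} {n : ℤ}
    (hn : O.valuation f = O.valuation (c i0) ^ n) :
    ∃ u : F, O.valuation u = 1 ∧ f = u * c i0 ^ n := by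
  have h0 := zpow_ne_zero n (h.ne_zero i0)
  refine ⟨f / c i0 ^ n, ?_, (div_mul_cancel₀ _ h0).symm⟩
  rw [map_div₀, map_zpow₀, hn, div_self (zpow_ne_zero n h.val_pos.ne')]

omit [DecidableEq ι] in
theorem int_val (h : Adp k O c i0) {n : ℤ} (hn : n ≠ 0) : O.valuation (n : F) = 1 := by
  have := h.const_val (a := (n : k)) (Int.cast_ne_zero.2 hn)
  rwa [map_intCast] at this

omit [CharZero k] [DecidableEq ι] in
/-- an element of value larger than one has value at least that of the inverse uniformiser -/
theorem one_le_mul (h : Adp k O c i0) {a : F} (ha : 1 < O.valuation a) :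
    1 ≤ O.valuation a * O.valuation (c i0) := by
  have h0 : a ≠ 0 := by
    rintro rfl
    simp at ha
  obtain ⟨n, hn⟩ := h.grp a h0
  rw [hn] at ha ⊢
  rw [← zpow_add_one₀ h.val_pos.ne', one_le_zpow_iff_right_of_lt_one₀ h.val_pos h.lt]
  have := (one_lt_zpow_iff_right_of_lt_one₀ h.val_pos h.lt).1 ha
  omega

omit [CharZero k] [DecidableEq ι] in
theorem le_unif (h : Adp k O c i0) {a : F} (ha : O.valuation a < 1) :
    O.valuation a ≤ O.valuation (c i0) := by
  by_cases h0 : a = 0
  · simp [h0]
  have hp : 0 < O.valuation a := (Valuation.pos_iff _).2 h0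
  have := h.one_le_mul (a := a⁻¹) (by rw [map_inv₀]; exact (one_lt_inv₀ hp).2 ha)
  rwa [map_inv₀, le_inv_mul_iff₀ hp, mul_one] at this

/-- the logarithmic derivative in the direction of the uniformiser -/
theorem log_der (h : Adp k O c i0) {e : ι → Derivation k F F}
    (he : ∀ j a, e j (c a) = if a = j then 1 else 0) (j : ι) {f : F} {n : ℤ}
    (hn : O.valuation f = O.valuation (c i0) ^ n) :
    ∃ r : F, O.valuation r ≤ 1 ∧
      e j f * c i0 = f * ((if i0 = j then (n : F) else 0) + r * c i0) := by
  obtain ⟨u, hu, rfl⟩ := h.exists_unit hn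
  have hu0 : u ≠ 0 := by
    rintro rfl
    simp at hu
  have hx := h.ne_zero i0
  refine ⟨e j u / u, ?_, ?_⟩
  · rw [map_div₀, hu, div_one, O.valuation_le_one_iff]
    exact h.dual_mem he j ((O.valuation_le_one_iff _).1 hu.le)
  · rw [Derivation.leibniz, Derivation.leibniz_zpow, he, zpow_sub_one₀ hx]
    simp only [smul_eq_mul, zsmul_eq_mul]
    split_ifs <;> field_simp
    ring

theorem val_dual_le (h : Adp k O c i0) {e : ι → Derivation k F F}
    (he : ∀ j a, e j (c a) = if a = j then 1 else 0) (j : ι) (f : F) :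
    O.valuation (e j f) ≤
      O.valuation f * if i0 = j then (O.valuation (c i0))⁻¹ else 1 := by
  by_cases h0 : f = 0
  · simp [h0]
  obtain ⟨n, hn⟩ := h.grp f h0
  obtain ⟨r, hr, h1⟩ := h.log_der he j hn
  have h2 := congrArg O.valuation h1
  rw [map_mul, map_mul] at h2
  split_ifs with hj
  · rw [le_mul_inv_iff₀ h.val_pos, h2]
    refine mul_le_of_le_one_right' (O.valuation.map_add_le ?_ ?_)
    · rw [if_pos hj, O.valuation_le_one_iff]
      exact intCast_mem _ n
    · rw [map_mul]
      exact mul_le_one' hr h.lt.le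
  · rw [if_neg hj, zero_add, map_mul, ← mul_assoc] at h2
    rw [mul_right_cancel₀ h.val_pos.ne' h2]
    exact mul_le_mul' le_rfl hr

theorem val_dual_eq (h : Adp k O c i0) {e : ι → Derivation k F F}
    (he : ∀ j a, e j (c a) = if a = j then 1 else 0) {t : F} (h0 : t ≠ 0)
    (ht : O.valuation t ≠ 1) : O.valuation (e i0 t) * O.valuation (c i0) = O.valuation t := by
  obtain ⟨n, hn⟩ := h.grp t h0
  have hn0 : n ≠ 0 := by
    rintro rfl
    exact ht (by simpa using hn)
  obtain ⟨r, hr, h1⟩ := h.log_der he i0 hn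
  rw [← map_mul, h1, if_pos rfl, map_mul, Valuation.map_add_eq_of_lt_left, h.int_val hn0, mul_one]
  rw [h.int_val hn0, map_mul]
  exact (mul_le_of_le_one_left' hr).trans_lt h.lt

variable [Fintype ι]

/-- LOG: the Jacobian of arbitrary functions has at most the logarithmic pole -/
theorem jac_log (h : Adp k O c i0) (D : ι → Derivation k F F) (f : ι → F) :
    O.valuation (Jac D f) * O.valuation (c i0) ≤
      O.valuation (Jac D c) * ∏ a, O.valuation (f a) := by
  obtain ⟨e, he⟩ := der_dual_exists h.basis.1
  have h1 := jac_swap h.basis (D := e) (by rw [jac_self he]; exact one_ne_zero) D f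
  rw [jac_self he, mul_one] at h1
  have h2 := val_jac_le O.valuation e f (fun a => O.valuation (f a))
    (fun j => if i0 = j then (O.valuation (c i0))⁻¹ else 1) fun a b => h.val_dual_le he b (f a)
  rw [Finset.prod_ite_eq, if_pos (Finset.mem_univ _), le_mul_inv_iff₀ h.val_pos] at h2
  rw [h1, map_mul, mul_right_comm, mul_comm]
  exact mul_le_mul' le_rfl h2

/-- RAM: the ramification formula `dt / t = unit * dx / x` -/
theorem ram (h : Adp k O c i0) (D : ι → Derivation k F F) {t : F} (h0 : t ≠ 0)
    (ht : O.valuation t ≠ 1) :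
    O.valuation (Jac D (Function.update c i0 t)) * O.valuation (c i0) =
      O.valuation t * O.valuation (Jac D c) := by
  obtain ⟨e, he⟩ := der_dual_exists h.basis.1
  rw [jac_upd h.basis he, map_mul, mul_right_comm, h.val_dual_eq he h0 ht]

/-- functions with poles bounded by a power of `a` -/
theorem jac_le_pow (h : Adp k O c i0) (D : ι → Derivation k F F) {f : ι → F} {a : F}
    (ha : 1 < O.valuation a) {N : ℕ} (hf : ∀ j, O.valuation (f j) ≤ O.valuation a ^ N) :
    O.valuation (Jac D f) ≤ O.valuation a ^ (N * Fintype.card ι + 1) * O.valuation (Jac D c) := by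
  have h1 : ∏ j, O.valuation (f j) ≤ O.valuation a ^ (N * Fintype.card ι) := by
    rw [pow_mul, ← Finset.card_univ, ← Finset.prod_const]
    exact Finset.prod_le_prod' fun j _ => hf j
  calc O.valuation (Jac D f) ≤ O.valuation (Jac D f) * (O.valuation a * O.valuation (c i0)) :=
        le_mul_of_one_le_right' (h.one_le_mul ha)
    _ = O.valuation a * (O.valuation (Jac D f) * O.valuation (c i0)) := mul_left_comm _ _ _
    _ ≤ O.valuation a * (O.valuation (Jac D c) * O.valuation a ^ (N * Fintype.card ι)) :=
        mul_le_mul' le_rfl ((h.jac_log D f).trans (mul_le_mul' le_rfl h1))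
    _ = _ := by rw [pow_succ]; ac_rfl

end Adp

end Pool.Agent.Lib.MP_5c318e_ag
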