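import Pool.Agent.Lib.MP_5c318e_ag.A.Ram
import Pool.Agent.Lib.MP_5c318e_ag.ResC

/-! Towers `k ⊆ L ⊆ F`: split frames, horizontal and vertical prime divisors. -/

namespace Pool.Agent.Lib.MP_5c318e_ag

open Set

variable {k L F : Type} [Field k] [Field L] [Field F] [Algebra k L] [Algebra L F] [Algebra k F]
  [IsScalarTower k L F]
variable {σ τ : Type}

/-- `G` extends the derivations `G0` of `L` to `F` -/
def Lifts (G0 : σ → Derivation k L L) (G : σ → Derivation k F F) : Prop :=
  ∀ j a, G j (algebraMap L F a) = algebraMap L F (G0 j a)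

/-- the frame of `F / k` made of lifts of a frame of `L / k` and a frame of `F / L` -/
def splitD (G : σ → Derivation k F F) (E : τ → Derivation L F F) : σ ⊕ τ → Derivation k F F :=
  Sum.elim G fun j => (E j).restrictScalars k

theorem exists_lifts [CharZero k] (G0 : σ → Derivation k L L) :
    ∃ G : σ → Derivation k F F, Lifts G0 G := by
  obtain ⟨s, hs⟩ := exists_isTranscendenceBasis k L
  have hi : AlgebraicIndependent k fun a : s => algebraMap L F a :=
    hs.1.map' (f := IsScalarTower.toAlgHom k L F) (algebraMap L F).injective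
  choose G hG using fun j => der_exists hi fun a : s => algebraMap L F (G0 j a)
  refine ⟨G, fun j a => ?_⟩
  exact DFunLike.congr_fun (der_ext_basis hs ((G j).compAlgebraMap L)
    ((Algebra.linearMap L F).compDer (G0 j)) fun a => hG j a) a

theorem basis_sum {w : σ → L} {z : τ → F} (hw : IsTranscendenceBasis k w)
    (hz : IsTranscendenceBasis L z) :
    IsTranscendenceBasis k (Sum.elim (algebraMap L F ∘ w) z) := by
  have := (isTranscendenceBasis_equiv (Equiv.sumComm σ τ)).2 (hw.sumElim_comp hz)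
  convert this using 1
  ext (a | a) <;> rfl

/-- valuations of `L` and of `F` -/
theorem comap_isEquiv (O : ValuationSubring F) :
    (O.comap (algebraMap L F)).valuation.IsEquiv (O.valuation.comap (algebraMap L F)) := by
  rw [Valuation.isEquiv_iff_val_le_one]
  intro x
  rw [ValuationSubring.valuation_le_one_iff, Valuation.comap_apply,
    ValuationSubring.valuation_le_one_iff]
  rfl

theorem rind_comap {O : ValuationSubring F} {κ : Type} {y : κ → L} :
    RIndC k (O.comap (algebraMap L F)).valuation y ↔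
      RIndC k O.valuation (algebraMap L F ∘ y) := by
  refine forall₂_congr fun p _ => ?_
  rw [(comap_isEquiv O).eq_one_iff_eq_one, Valuation.comap_apply,
    ← MvPolynomial.aeval_algebraMap_apply, Function.comp_def]

theorem rind_of_triv {O : ValuationSubring F} (hL : ∀ a : L, algebraMap L F a ∈ O) {κ : Type}
    {y : κ → L} (hy : AlgebraicIndependent k y) : RIndC k O.valuation (algebraMap L F ∘ y) := by
  rw [← rind_comap]
  intro p hp
  have h0 : MvPolynomial.aeval y p ≠ 0 := fun h => hp (algebraicIndependent_iff.1 hy p h)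
  refine le_antisymm ((ValuationSubring.valuation_le_one_iff _ _).2 (hL _)) ?_
  have := (ValuationSubring.valuation_le_one_iff (O.comap (algebraMap L F))
    (MvPolynomial.aeval y p)⁻¹).2 (hL _)
  rwa [map_inv₀, inv_le_one₀ ((Valuation.pos_iff _).2 h0)] at this

theorem val_eq_one_of_triv {O : ValuationSubring F} (hL : ∀ a : L, algebraMap L F a ∈ O) {a : L}
    (ha : a ≠ 0) : O.valuation (algebraMap L F a) = 1 := by
  refine le_antisymm ((O.valuation_le_one_iff _).2 (hL _)) ?_
  have := (O.valuation_le_one_iff _).2 (hL a⁻¹)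
  rwa [map_inv₀, map_inv₀, inv_le_one₀ ((Valuation.pos_iff _).2 ((map_ne_zero _).2 ha))] at this

/-- the non-distinguished indices of a sum type, right case -/
def neInr (σ : Type) {τ : Type} (i0 : τ) (j : {j : σ ⊕ τ // j ≠ Sum.inr i0}) :
    σ ⊕ {j // j ≠ i0} :=
  match j with
  | ⟨Sum.inl a, _⟩ => Sum.inl a
  | ⟨Sum.inr b, h⟩ => Sum.inr ⟨b, fun e => h (congrArg _ e)⟩

theorem neInr_inj (σ : Type) {τ : Type} (i0 : τ) : Function.Injective (neInr σ i0) := by
  rintro ⟨a | a, ha⟩ ⟨b | b, hb⟩ h <;> simp_all [neInr]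

/-- the non-distinguished indices of a sum type, left case -/
def neInl {σ : Type} (τ : Type) (s0 : σ) (j : {j : σ ⊕ τ // j ≠ Sum.inl s0}) :
    {j // j ≠ s0} ⊕ τ :=
  match j with
  | ⟨Sum.inl a, h⟩ => Sum.inl ⟨a, fun e => h (congrArg _ e)⟩
  | ⟨Sum.inr b, _⟩ => Sum.inr b

theorem neInl_inj {σ : Type} (τ : Type) (s0 : σ) : Function.Injective (neInl τ s0) := by
  rintro ⟨a | a, ha⟩ ⟨b | b, hb⟩ h <;> simp_all [neInl]

/-- H: a prime divisor over `L` is a prime divisor over `k` -/
theorem Adp.horiz {O : ValuationSubring F} {c : τ → F} {i0 : τ} (h : Adp L O c i0) {w : σ → L}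
    (hw : IsTranscendenceBasis k w) :
    Adp k O (Sum.elim (algebraMap L F ∘ w) c) (Sum.inr i0) where
  basis := basis_sum hw h.basis
  lt := h.lt
  grp := h.grp
  res := by
    have h1 := (rind_of_triv h.const hw.1).sum_of_base (kR L F)
      (fun a => ⟨algebraMap k L a, (IsScalarTower.algebraMap_apply k L F a).symm⟩)
      (fun i => mem_kR _) (RIndC_iff_fieldRange.1 h.res)
    have h2 := h1.comp _ (neInr_inj σ i0)
    refine (congrArg (RIndC k O.valuation) ?_).mp h2
    ext ⟨a | a, ha⟩ <;> rfl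

theorem alg_gen {w : σ → L} (hw : IsTranscendenceBasis k w) (a : L) :
    IsAlgebraic (genF k (algebraMap L F ∘ w)) (algebraMap L F a) := by
  rw [isAlgebraic_gen_iff]
  by_contra hn
  have hi : AlgebraicIndependent k (algebraMap L F ∘ w) :=
    hw.1.map' (f := IsScalarTower.toAlgHom k L F) (algebraMap L F).injective
  have h1 := (hi.option_iff_transcendental _).2 hn
  have h2 : AlgebraicIndependent k fun o : Option σ => o.elim a w :=
    AlgebraicIndependent.of_comp (IsScalarTower.toAlgHom k L F) (by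
      convert h1 using 1
      ext (_ | _) <;> rfl)
  exact (hw.1.option_iff_transcendental a).1 h2 (hw.isAlgebraic.isAlgebraic a)

omit [Algebra k L] [Algebra L F] [IsScalarTower k L F] [Field L] in
theorem adp_of_res {ι : Type} [Fintype ι] {O : ValuationSubring F} {c : ι → F} {i0 : ι}
    (h0 : c i0 ≠ 0) (ht : O.valuation (c i0) < 1)
    (hg : ∀ f : F, f ≠ 0 → ∃ n : ℤ, O.valuation f = O.valuation (c i0) ^ n)
    (hy : RIndC k O.valuation fun j : {j // j ≠ i0} => c j)
    (hc : Algebra.trdeg k F ≤ Fintype.card ι) : Adp k O c i0 := by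
  classical
  have h1 := (adp_option h0 ht hg hy (by
    rw [← Fintype.card_option, Fintype.card_congr (Equiv.optionSubtypeNe i0)]
    exact hc)).reindex (Equiv.optionSubtypeNe i0).symm
  convert h1 using 1
  · ext j
    by_cases hj : j = i0
    · simp [hj]
    · simp [Equiv.optionSubtypeNe_symm_of_ne hj]
  · rfl

omit [Algebra k L] [Algebra k F] [IsScalarTower k L F] [Field k] in
/-- a discrete valuation restricts to a trivial or a discrete valuation -/
theorem exists_unif_comap {O : ValuationSubring F} [IsDiscreteValuationRing O]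
    (hL : ¬∀ a : L, algebraMap L F a ∈ O) :
    ∃ t : L, t ≠ 0 ∧ (O.comap (algebraMap L F)).valuation t < 1 ∧ ∀ a : L, a ≠ 0 → ∃ n : ℤ,
      (O.comap (algebraMap L F)).valuation a = (O.comap (algebraMap L F)).valuation t ^ n := by
  obtain ⟨x, hx, hlt, hg⟩ := exists_unif O
  have hp : 0 < O.valuation x := (Valuation.pos_iff _).2 hx
  let H : AddSubgroup ℤ :=
    { carrier := {n | ∃ a : L, O.valuation (algebraMap L F a) = O.valuation x ^ n}
      zero_mem' := ⟨1, by simp⟩
      add_mem' := by
        rintro m n ⟨a, ha⟩ ⟨b, hb⟩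
        exact ⟨a * b, by rw [map_mul, map_mul, ha, hb, zpow_add₀ hp.ne']⟩
      neg_mem' := by
        rintro n ⟨a, ha⟩
        exact ⟨a⁻¹, by rw [map_inv₀, map_inv₀, ha, zpow_neg]⟩ }
  obtain ⟨μ, hμ⟩ := Int.subgroup_cyclic H
  have h1 : |μ| ∈ H := by
    rw [abs_mem_iff, hμ]
    exact AddSubgroup.subset_closure rfl
  obtain ⟨t, ht⟩ := h1
  have key : ∀ a : L, a ≠ 0 → ∃ n : ℤ,
      O.valuation (algebraMap L F a) = O.valuation (algebraMap L F t) ^ n := fun a ha => by
    obtain ⟨n, hn⟩ := hg _ ((map_ne_zero (algebraMap L F)).2 ha)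
    have h2 : n ∈ AddSubgroup.closure {μ} := hμ ▸ (⟨a, hn⟩ : n ∈ H)
    obtain ⟨q, rfl⟩ := AddSubgroup.mem_closure_singleton.1 h2
    refine ⟨q * μ.sign, ?_⟩
    rw [hn, ht, ← zpow_mul, smul_eq_mul]
    congr 1
    rw [mul_left_comm, mul_comm |μ|, Int.sign_mul_abs]
  have hμ0 : μ ≠ 0 := by
    rintro rfl
    refine hL fun a => ?_
    by_cases ha : a = 0
    · simp [ha]
    · obtain ⟨n, hn⟩ := key a ha
      rw [← O.valuation_le_one_iff, hn, ht]
      simp
  refine ⟨t, ?_, (comap_isEquiv O).lt_one_iff_lt_one.2 ?_, fun a ha => ?_⟩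
  · rintro rfl
    rw [map_zero, map_zero] at ht
    exact zpow_ne_zero _ hp.ne' ht.symm
  · rw [Valuation.comap_apply, ht]
    exact zpow_lt_one₀ hp hlt (abs_pos.2 hμ0)
  · obtain ⟨n, hn⟩ := key a ha
    refine ⟨n, ?_⟩
    rw [← map_zpow₀, (comap_isEquiv O).eq_iff, Valuation.comap_apply, Valuation.comap_apply, hn,
      map_zpow₀, map_zpow₀]

/-- coordinates at a vertical prime divisor: `w` is adapted to the restriction of `O` to `L`,
and replacing the uniformiser `w s0` by `x` and adding `z` gives coordinates adapted to `O` -/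
structure Vert (k : Type) [Field k] [Algebra k L] [Algebra k F] [DecidableEq σ] [DecidableEq τ]
    (O : ValuationSubring F) (w : σ → L) (s0 : σ) (z : τ → F) (x : F) : Prop where
  base : Adp k (O.comap (algebraMap L F)) w s0
  top : Adp k O (Function.update (Sum.elim (algebraMap L F ∘ w) z) (Sum.inl s0) x) (Sum.inl s0)

section fin

variable [Fintype σ] [Fintype τ]

theorem trdeg_sum (hσ : Algebra.trdeg k L = Fintype.card σ)
    (hτ : Algebra.trdeg L F = Fintype.card τ) :
    Algebra.trdeg k F = Fintype.card (σ ⊕ τ) := by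
  rw [← trdeg_add_eq k L (A := F), hσ, hτ, Fintype.card_sum, Nat.cast_add]

theorem IsDivisorial.exists_res {O : ValuationSubring F} (hO : IsDivisorial k F O)
    (hσ : Algebra.trdeg k L = Fintype.card σ) (hτ : Algebra.trdeg L F = Fintype.card τ) :
    ∃ (n : ℕ) (y : Fin n → F), n + 1 = Fintype.card σ + Fintype.card τ ∧
      RIndC k O.valuation y := by
  obtain ⟨-, n, y, hn, hy⟩ := hO
  rw [trdeg_sum hσ hτ, Fintype.card_sum] at hn
  exact ⟨n, y, by exact_mod_cast hn, hy⟩

/-- completing a residually independent family -/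
theorem rind_complete {O : ValuationSubring F} {κ : Type} [Fintype κ] {u : κ → F}
    (hu : RIndC k O.valuation u) {n : ℕ} {y : Fin n → F} (hy : RIndC k O.valuation y) {m : ℕ}
    (hm : Fintype.card κ + m ≤ n) : ∃ z : Fin m → F, RIndC k O.valuation (Sum.elim u z) := by
  have h0 : Algebra.trdeg (⊤ : Subfield F) F ≤ (0 : ℕ) := by
    have : Algebra.IsAlgebraic (⊤ : Subfield F) F :=
      ⟨fun x => Res_isAlgebraic_of_mem ⊤ trivial⟩
    simp [trdeg_eq_zero]
  obtain ⟨z, -, hz⟩ := RCC_trdeg (⊤ : Subfield F) (fun _ => trivial) (fun _ => trivial) hu hy h0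
    (m := m) (by simpa using hm)
  exact ⟨z, hz⟩

/-- H': a prime divisor over `k` that contains `L` is a prime divisor over `L` -/
theorem IsDivisorial.horiz {O : ValuationSubring F} (hO : IsDivisorial k F O)
    (hσ : Algebra.trdeg k L = Fintype.card σ) (hτ : Algebra.trdeg L F = Fintype.card τ)
    (hL : ∀ a : L, algebraMap L F a ∈ O) : IsDivisorial L F O := by
  obtain ⟨n, y, hn, hy⟩ := hO.exists_res hσ hτ
  obtain ⟨w, hw⟩ := exists_basis_of_trdeg hσ
  have := hO.1
  obtain ⟨t, h0, ht, -⟩ := exists_unif O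
  have hu := rind_of_triv hL hw.1
  have h1 := (indep_option h0 ht
    (RIndC_empty (fun a ha => val_eq_one_of_triv hL ha) (Empty.elim : Empty → F))).cardinalMk_le_trdeg
  rw [hτ] at h1
  have h2 : 1 ≤ Fintype.card τ := by simpa using h1
  obtain ⟨m, hm⟩ : ∃ m, Fintype.card τ = m + 1 := ⟨Fintype.card τ - 1, by omega⟩
  obtain ⟨z, hz⟩ := rind_complete hu hy (m := m) (by omega)
  refine ⟨hO.1, m, z, by rw [hτ, hm], RIndC_iff_fieldRange.2 (RIndCK hz (kR L F)
    (gen_le (fun a => ⟨algebraMap k L a, (IsScalarTower.algebraMap_apply k L F a).symm⟩)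
      fun i => mem_kR _) ?_)⟩
  rintro _ ⟨a, rfl⟩
  exact alg_gen hw a

/-- V: a prime divisor that is not trivial on `L` restricts to a prime divisor of `L` -/
theorem IsDivisorial.comap {O : ValuationSubring F} (hO : IsDivisorial k F O)
    (hσ : Algebra.trdeg k L = Fintype.card σ) (hτ : Algebra.trdeg L F = Fintype.card τ)
    (hL : ¬∀ a : L, algebraMap L F a ∈ O) : IsDivisorial k L (O.comap (algebraMap L F)) := by
  classical
  obtain ⟨n, y, hn, hy⟩ := hO.exists_res hσ hτ
  obtain ⟨z, hz⟩ := exists_basis_of_trdeg hτ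
  have := hO.1
  obtain ⟨t, h0, ht, hg⟩ := exists_unif_comap hL
  have he : RIndC k O.valuation (algebraMap L F ∘ (Empty.elim : Empty → L)) :=
    RIndC_empty (fun a ha => hy.const ha) _
  have h1 := (indep_option h0 ht (rind_comap.2 he)).cardinalMk_le_trdeg
  rw [hσ] at h1
  have h2 : 1 ≤ Fintype.card σ := by simpa using h1
  obtain ⟨m, hm⟩ : ∃ m, Fintype.card σ = m + 1 := ⟨Fintype.card σ - 1, by omega⟩
  obtain ⟨u, hu, hr⟩ := RCC (kR L F)
    (fun a => ⟨algebraMap k L a, (IsScalarTower.algebraMap_apply k L F a).symm⟩)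
    (fun i => i.elim) he hy z (alg_of_basis hz) (m := m) (by simp; omega)
  choose u0 hu0 using hu
  obtain rfl : u = algebraMap L F ∘ u0 := funext fun j => (hu0 j).symm
  exact (adp_option h0 ht hg (rind_comap.2 hr.right) (by rw [hσ, hm]; simp)).divisorial

variable [DecidableEq σ] [DecidableEq τ]

/-- any adapted coordinates below extend to vertical coordinates -/
theorem IsDivisorial.exists_vert_of {O : ValuationSubring F} (hO : IsDivisorial k F O)
    (hτ : Algebra.trdeg L F = Fintype.card τ) {w : σ → L} {s0 : σ}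
    (hw : Adp k (O.comap (algebraMap L F)) w s0) : ∃ (z : τ → F) (x : F), Vert k O w s0 z x := by
  have hσ : Algebra.trdeg k L = Fintype.card σ := by
    rw [← hw.basis.cardinalMk_eq_trdeg, Cardinal.mk_fintype]
  obtain ⟨n, y, hn, hy⟩ := hO.exists_res hσ hτ
  have := hO.1
  obtain ⟨x, h0, hx, hg⟩ := exists_unif O
  have hpos : 0 < Fintype.card σ := Fintype.card_pos_iff.2 ⟨s0⟩
  obtain ⟨z, hz⟩ := rind_complete (rind_comap.1 hw.res) hy (m := Fintype.card τ) (by
    simp only [ne_eq, Fintype.card_subtype_compl, Fintype.card_unique]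
    omega)
  let e := Fintype.equivFin τ
  refine ⟨z ∘ e, x, hw, adp_of_res (by simpa using h0) (by simpa using hx) (by simpa using hg) ?_
    (trdeg_sum hσ hτ).le⟩
  have h2 := (hz.comp (Sum.map id e) (Sum.map_injective.2 ⟨fun _ _ h => h, e.injective⟩)).comp _
    (neInl_inj τ s0)
  refine (congrArg (RIndC k O.valuation) ?_).mp h2
  ext ⟨a | a, ha⟩
  · rw [Function.update_of_ne ha]
    rfl
  · rw [Function.update_of_ne ha]
    rfl

theorem IsDivisorial.exists_vert {O : ValuationSubring F} (hO : IsDivisorial k F O)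
    (hσ : Algebra.trdeg k L = Fintype.card σ) (hτ : Algebra.trdeg L F = Fintype.card τ)
    (hL : ¬∀ a : L, algebraMap L F a ∈ O) :
    ∃ (w : σ → L) (s0 : σ) (z : τ → F) (x : F), Vert k O w s0 z x := by
  obtain ⟨w, s0, hw⟩ := (hO.comap hσ hτ hL).exists_adp hσ
  obtain ⟨z, x, h⟩ := hO.exists_vert_of hτ hw
  exact ⟨w, s0, z, x, h⟩

variable {G0 : σ → Derivation k L L} {G : σ → Derivation k F F} {E : τ → Derivation L F F}

omit [IsScalarTower k L F] in
theorem Lifts.jac (hl : Lifts G0 G) (w : σ → L) :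
    Jac G (algebraMap L F ∘ w) = algebraMap L F (Jac G0 w) := by
  rw [Jac, Jac, RingHom.map_det]
  congr 1
  ext i j
  simp [hl j]

theorem jac_split (hl : Lifts G0 G) (E : τ → Derivation L F F) (w : σ → L) (z : τ → F) :
    Jac (splitD G E) (Sum.elim (algebraMap L F ∘ w) z) = algebraMap L F (Jac G0 w) * Jac E z := by
  rw [← hl.jac]
  exact jac_sum G (fun j => (E j).restrictScalars k) (algebraMap L F ∘ w) z
    fun a c => (E c).map_algebraMap (w a)

theorem IsFr.split (hG : IsFr G0) (hl : Lifts G0 G) (hE : IsFr E) : IsFr (splitD G E) := by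
  obtain ⟨w, hw, h1⟩ := hG
  obtain ⟨z, hz, h2⟩ := hE
  exact ⟨_, basis_sum hw hz, by
    rw [jac_split hl]
    exact mul_ne_zero ((map_ne_zero _).2 h1) h2⟩

/-- SPLIT: a form regular over `k` is regular over `L` -/
theorem PluD.fibre {m : ℕ} {φ : F} (h : PluD (splitD G E) m φ) (hG : IsFr G0)
    (hl : Lifts G0 G) : PluD E m φ := fun O c i0 hc => by
  obtain ⟨w, hw, h1⟩ := hG
  have := h O _ _ (hc.horiz hw)
  rwa [jac_split hl, map_mul, val_eq_one_of_triv hc.const h1, one_mul] at this

variable [CharZero k] {O : ValuationSubring F} {w : σ → L} {s0 : σ} {z : τ → F} {x : F}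

omit [Fintype σ] [Fintype τ] [CharZero k] [IsScalarTower k L F] in
theorem Vert.lt (h : Vert k O w s0 z x) : O.valuation (algebraMap L F (w s0)) < 1 :=
  (comap_isEquiv (L := L) O).lt_one_iff_lt_one.1 h.base.lt

omit [Fintype σ] [Fintype τ] [CharZero k] [IsScalarTower k L F] in
theorem Vert.pos (h : Vert k O w s0 z x) : 0 < O.valuation (algebraMap L F (w s0)) :=
  (Valuation.pos_iff _).2 ((map_ne_zero _).2 (h.base.ne_zero s0))

/-- the canonical order at a vertical prime divisor -/
theorem Vert.jac (h : Vert k O w s0 z x) (hl : Lifts G0 G) (E : τ → Derivation L F F) :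
    O.valuation (algebraMap L F (w s0)) * O.valuation (Jac (splitD G E)
      (Function.update (Sum.elim (algebraMap L F ∘ w) z) (Sum.inl s0) x)) =
      O.valuation (algebraMap L F (Jac G0 w)) * O.valuation (Jac E z) * O.valuation x := by
  have h1 := h.top.ram (splitD G E) ((map_ne_zero _).2 (h.base.ne_zero s0)) h.lt.ne
  rw [Function.update_idem, Function.update_self,
    Function.update_eq_self_iff.2 (by rfl), jac_split hl, map_mul] at h1
  exact h1.symm

theorem Vert.basis (h : Vert k O w s0 z x) : IsTranscendenceBasis L z := by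
  have : CharZero L := charZero_of_injective_algebraMap (algebraMap k L).injective
  have : CharZero F := charZero_of_injective_algebraMap (algebraMap k F).injective
  have hσ : Algebra.trdeg k L = Fintype.card σ := by
    rw [← h.base.basis.cardinalMk_eq_trdeg, Cardinal.mk_fintype]
  have hτ : Algebra.trdeg L F = Fintype.card τ := by
    have h1 := trdeg_add_eq k L (A := F)
    rw [← h.top.basis.cardinalMk_eq_trdeg, Cardinal.mk_fintype, hσ, Fintype.card_sum,
      Nat.cast_add] at h1
    exact (Cardinal.add_nat_inj _).1 ((add_comm _ _).trans (h1.trans (add_comm _ _)))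
  obtain ⟨G0, hG⟩ := exists_isFr hσ
  obtain ⟨E, hE⟩ := exists_isFr hτ
  obtain ⟨G, hl⟩ := exists_lifts (F := F) G0
  have h1 := h.jac hl E
  have h2 : Jac E z ≠ 0 := fun h0 => by
    rw [h0, map_zero, mul_zero, zero_mul] at h1
    exact mul_ne_zero h.pos.ne'
      ((Valuation.ne_zero_iff _).2 ((hG.split hl hE).jac_ne h.top.basis.1)) h1
  exact (indep_kR_iff.1 (indep_of_jac (k0 := kR L F) E (fun j => der_kR _)
    h2)).isTranscendenceBasis_of_trdeg_le_of_finite (by simpa using hτ.le)

/-- regularity at a vertical prime divisor -/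
theorem Vert.reg_iff (h : Vert k O w s0 z x) (hl : Lifts G0 G) (E : τ → Derivation L F F) (m : ℕ)
    (φ : F) : O.valuation φ ≤ O.valuation (Jac (splitD G E)
      (Function.update (Sum.elim (algebraMap L F ∘ w) z) (Sum.inl s0) x)) ^ m ↔
      O.valuation φ * O.valuation (algebraMap L F (w s0)) ^ m ≤
      (O.valuation (algebraMap L F (Jac G0 w)) * O.valuation (Jac E z) * O.valuation x) ^ m := by
  rw [← h.jac hl E, mul_pow, mul_comm (O.valuation (algebraMap L F (w s0)) ^ m),
    mul_le_mul_iff_left₀ (pow_pos h.pos m)]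

/-- regularity over `k` is regularity over `L` plus regularity at the vertical divisors -/
theorem pluD_split_iff (hG : IsFr G0) (hl : Lifts G0 G) (hE : IsFr E) {m : ℕ} {φ : F} :
    PluD (splitD G E) m φ ↔ PluD E m φ ∧
      ∀ (O : ValuationSubring F) (w : σ → L) (s0 : σ) (z : τ → F) (x : F), Vert k O w s0 z x →
      O.valuation φ * O.valuation (algebraMap L F (w s0)) ^ m ≤
      (O.valuation (algebraMap L F (Jac G0 w)) * O.valuation (Jac E z) * O.valuation x) ^ m := by
  refine ⟨fun h => ⟨h.fibre hG hl, fun O w s0 z x hv => (hv.reg_iff hl E m φ).1 (h O _ _ hv.top)⟩,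
    fun ⟨h1, h2⟩ => pluD_of_exists fun O hO => ?_⟩
  by_cases hL : ∀ a : L, algebraMap L F a ∈ O
  · obtain ⟨c, i0, hc⟩ := (hO.horiz hG.trdeg hE.trdeg hL).exists_adp hE.trdeg
    obtain ⟨w, hw, h3⟩ := hG
    refine ⟨_, _, hc.horiz hw, ?_⟩
    rw [jac_split hl, map_mul, val_eq_one_of_triv hL h3, one_mul]
    exact h1 O c i0 hc
  · obtain ⟨w, s0, z, x, hv⟩ := hO.exists_vert hG.trdeg hE.trdeg hL
    exact ⟨_, _, hv.top, (hv.reg_iff hl E m φ).2 (h2 O w s0 z x hv)⟩

end fin

end Pool.Agent.Lib.MP_5c318e_ag
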